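import Mathlib
import Pool.Agent.Helper76.UFL.Defs
import Pool.Agent.Helper76.UFL.Main

set_option autoImplicit false

namespace Pool.Agent.Results.MP_9ff1c8_al.Existence

open Pool.Agent.Helper76.UFL

theorem result : ∃ (Q : Type) (L : LoopOn Q), Nat.card Q = 64 ∧ L.IsCommutative ∧
    L.IsUniversallyFlexible ∧ L.HasAAIP ∧ (∀ x, L.mul x x = L.one) ∧ ¬ L.IsMiddleBol :=
  Pool.Agent.Helper76.UFL.main

end Pool.Agent.Results.MP_9ff1c8_al.Existence
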